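import Mathlib

namespace Pool.Agent.Results.MP_041d76_gt.SumNotClosed

open Filter Topology Set TopologicalSpace

universe u v

/-- `S` embeds in the space of continuous maps from a separable metrizable space to a metrizable
space, with the compact-open topology. -/
def InCk (S : Type) [TopologicalSpace S] : Prop :=
  ∃ (Z : Type u) (Y : Type v) (_ : TopologicalSpace Z) (_ : TopologicalSpace Y),
    MetrizableSpace Z ∧ SeparableSpace Z ∧ MetrizableSpace Y ∧ ∃ e : S → C(Z, Y), IsEmbedding e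

theorem basis {Z Y : Type*} [TopologicalSpace Z] [PseudoMetricSpace Y] (f : C(Z, Y)) :
    (𝓝 f).HasBasis (fun p : Set Z × ℕ => IsCompact p.1 ∧ True)
      fun p => {g | ∀ z ∈ p.1, dist (g z) (f z) < 1 / ((p.2 : ℝ) + 1)} :=
  nhds_basis_uniformity Metric.uniformity_basis_dist_inv_nat_succ.compactConvergenceUniformity

theorem code (P : Type*) [TopologicalSpace P] [SecondCountableTopology P] [Nonempty P] :
    ∃ c : Set P → Set ℕ, ∀ s t, c s = c t → closure s = closure t := by
  obtain ⟨b, hb, -, hB⟩ := exists_countable_basis P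
  obtain ⟨e, he⟩ := (hb.insert ∅).exists_eq_range (insert_nonempty _ _)
  have h1 : ∀ s t : Set P, {n | (e n ∩ s).Nonempty} = {n | (e n ∩ t).Nonempty} →
      closure s ⊆ closure t := by
    intro s t h x hx
    rw [hB.mem_closure_iff] at hx ⊢
    intro o ho hxo
    obtain ⟨n, rfl⟩ : o ∈ range e := he ▸ mem_insert_of_mem _ ho
    have : n ∈ {n | (e n ∩ s).Nonempty} := hx _ ho hxo
    rw [h] at this
    exact this
  exact ⟨_, fun s t h => (h1 s t h).antisymm (h1 t s h.symm)⟩

theorem key {Z Y : Type*} [TopologicalSpace Z] [SecondCountableTopology Z] [PseudoMetricSpace Y]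
    (A : Set ℝ) (e : C(A, ℝ) → C(Z, Y)) (he : IsInducing e) :
    ∃ G : Set (ℕ × Compacts Z × ℝ), (fun p => p.2.2) '' closure G = A := by
  let Φ : ℕ → Set Z → Set ℝ := fun n K => {x | ∃ hx : x ∈ A, ∀ h : C(A, ℝ),
    (∀ z ∈ K, dist (e h z) (e 0 z) < 1 / ((n : ℝ) + 1)) → |h ⟨x, hx⟩| ≤ 1}
  have hmono : ∀ n K K', K ⊆ K' → Φ n K ⊆ Φ n K' :=
    fun n K K' hK x ⟨hx, h⟩ => ⟨hx, fun g hg => h g fun z hz => hg z (hK hz)⟩
  have h1 : ∀ n K, IsCompact K → ∃ L, IsClosed L ∧ L ⊆ A ∧ Φ n K ⊆ L := by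
    intro n K hK
    have h2 := he.continuous.continuousAt.preimage_mem_nhds
      ((basis (e 0)).mem_of_mem (i := (K, n)) ⟨hK, trivial⟩)
    obtain ⟨⟨L, m⟩, ⟨hL, -⟩, hLm⟩ := (basis (0 : C(A, ℝ))).mem_iff.1 h2
    refine ⟨Subtype.val '' L, (hL.image continuous_subtype_val).isClosed,
      Subtype.coe_image_subset _ _, ?_⟩
    rintro x ⟨hx, h⟩
    by_contra hn
    obtain ⟨f, hf0, hf1, -⟩ := exists_continuous_zero_one_of_isClosed hL.isClosed
      (isClosed_singleton (x := (⟨x, hx⟩ : A)))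
      (disjoint_singleton_right.2 fun hh => hn ⟨_, hh, rfl⟩)
    have h3 := h (f + f) (hLm fun z hz => by
      have : (0 : ℝ) < 1 / ((m : ℝ) + 1) := by positivity
      simpa [hf0 hz] using this)
    simp only [ContinuousMap.add_apply, hf1 (mem_singleton _), Pi.one_apply] at h3
    norm_num at h3
  refine ⟨{p | p.2.2 ∈ Φ p.1 p.2.1}, Subset.antisymm ?_ fun x hx => ?_⟩
  · rintro _ ⟨⟨n, K, x⟩, hp, rfl⟩
    obtain ⟨q, hq, hl⟩ := mem_closure_iff_seq_limit.1 hp
    have hn : Tendsto (fun j => (q j).1) atTop (𝓝 n) := (continuous_fst.tendsto _).comp hl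
    have hK : Tendsto (fun j => (q j).2.1) atTop (𝓝 K) :=
      ((continuous_fst.comp continuous_snd).tendsto _).comp hl
    have hx : Tendsto (fun j => (q j).2.2) atTop (𝓝 x) :=
      ((continuous_snd.comp continuous_snd).tendsto _).comp hl
    rw [nhds_discrete, tendsto_pure] at hn
    obtain ⟨L, hL, hLA, hΦ⟩ := h1 n _
      (Compacts.isCompact_biUnion_coe_of_isCompact hK.isCompact_insert_range)
    refine hLA (hL.mem_of_tendsto hx ?_)
    filter_upwards [hn] with j hj
    have hqj : (q j).2.2 ∈ Φ (q j).1 (q j).2.1 := hq j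
    rw [hj] at hqj
    refine hΦ (hmono n _ _ ?_ hqj)
    exact subset_biUnion_of_mem (u := fun K : Compacts Z => (K : Set Z))
      (mem_insert_of_mem _ ⟨j, rfl⟩)
  · have h2 : {h : C(A, ℝ) | |h ⟨x, hx⟩| ≤ 1} ∈ 𝓝 (0 : C(A, ℝ)) := by
      refine mem_of_superset ((basis (0 : C(A, ℝ))).mem_of_mem (i := ({⟨x, hx⟩}, 0))
        ⟨isCompact_singleton, trivial⟩) fun h hh => ?_
      have := hh _ rfl
      simp only [ContinuousMap.zero_apply, dist_zero_right, Real.norm_eq_abs, Nat.cast_zero,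
        zero_add, div_one] at this
      exact this.le
    rw [he.nhds_eq_comap] at h2
    obtain ⟨⟨K, n⟩, ⟨hK, -⟩, h3⟩ := ((basis (e 0)).comap e).mem_iff.1 h2
    exact ⟨(n, ⟨K, hK⟩, x), subset_closure ⟨hx, fun h hh => h3 hh⟩, rfl⟩

/-- The class is not closed under arbitrary topological sums. -/
theorem result : ∃ (I : Type) (X : I → Type) (_ : ∀ i, TopologicalSpace (X i)),
    (∀ i, InCk.{0, 0} (X i)) ∧ ¬ InCk.{u, v} (Σ i, X i) := by
  refine ⟨Set ℝ, fun A => C(A, ℝ), inferInstance, fun A => ⟨A, ℝ, inferInstance, inferInstance,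
    inferInstance, inferInstance, inferInstance, id, IsEmbedding.id⟩, ?_⟩
  rintro ⟨Z, Y, _, _, _, _, _, e, he⟩
  letI := metrizableSpaceMetric Y
  haveI : SecondCountableTopology Z := by
    letI := metrizableSpaceMetric Z
    exact UniformSpace.secondCountable_of_separable Z
  choose G hG using fun A : Set ℝ => key A (fun h => e ⟨A, h⟩)
    (he.comp (IsEmbedding.sigmaMk (σ := fun A : Set ℝ => C(A, ℝ)))).isInducing
  obtain ⟨c, hc⟩ := code (ℕ × Compacts Z × ℝ)
  have h1 : Function.Injective fun A => c (G A) := fun A B h => by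
    rw [← hG A, ← hG B, hc _ _ h]
  have h2 := Cardinal.mk_le_of_injective h1
  simp only [Cardinal.mk_set, Cardinal.mk_real, Cardinal.mk_nat, Cardinal.two_power_aleph0] at h2
  exact absurd h2 (not_le.2 (Cardinal.cantor _))

end Pool.Agent.Results.MP_041d76_gt.SumNotClosed
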